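import Pool.Agent.Lib.MP_a70d84_an.Ins.Atom
import Pool.Agent.Lib.MP_a70d84_an.Ins.Alg

/-!
# Every discontinuous inner function separates `J` from `ker φ ∩ ker ψ`

The definitions are in `Pool.Agent.Lib.MP_a70d84_an.Ins.Defs`.
-/

set_option autoImplicit false

open MeasureTheory Filter Topology

namespace Pool.Agent.Results.MP_a70d84_an.InnerSymbols

open Pool.Agent.Lib.MP_a70d84_an.Ins

/-- There are inner functions `θ` which are not almost everywhere equal to a continuous function,
and for every such `θ`, with `T = T(θ)` and `A n = (P n - T_n(θ) T_n(conj θ)) (P n - T_n(conj θ)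
T_n(θ))`: the sequence `A` lies in the closed algebra of the finite sections with symbols in `B`
for every `B` containing `θ`, `conj θ` and `1`; the strong limits of `A n`, of `W n A n W n` and
of their adjoints are `0`, so `A` is in both kernels; and `A` is not in `J`, its distance
from `J` being at least `16 e⁻⁴`. -/
theorem result :
    (∃ θ : Sym, IsInner θ ∧ ¬ AECont θ) ∧
    ∀ θ : Sym, IsInner θ → ¬ AECont θ →
    ∀ (H : Type) [NormedAddCommGroup H] [InnerProductSpace ℂ H] [CompleteSpace H]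
      (e : ℕ → H) (P W : ℕ → (H →L[ℂ] H)), IsBasis e → IsSection e P → IsFlip e W →
    ∃ T : H →L[ℂ] H, IsToeplitz e T θ ∧
      (∀ B : Set Sym, Symbols B θ → InAlg e P B (SA P T)) ∧
      NullLimits W (SA P T) ∧
      InKernels W (SA P T) ∧
      ¬ InJ P W (SA P T) ∧
      FarFromJ P W (SA P T) (16 * Real.exp (-4)) := by
  refine ⟨exists_inner, fun θ hθ hd H _ _ _ e' P W he hP hW => ?_⟩
  obtain ⟨e, rfl⟩ : ∃ e : HilbertBasis ℕ ℂ H, (fun k => e k) = e' :=
    ⟨HilbertBasis.mk he.1 he.2.ge, HilbertBasis.coe_mk he.1 he.2.ge⟩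
  have hm : AEStronglyMeasurable θ (AddCircle.haarAddCircle (T := (1 : ℝ))) := by
    rw [← vol_haar]
    exact hθ.1
  have h1 : ∀ᵐ t ∂(AddCircle.haarAddCircle (T := (1 : ℝ))), ‖θ t‖ = 1 := by
    rw [← vol_haar]
    exact hθ.2.1
  have hd' : ¬ ∃ g : C(AddCircle (1 : ℝ), ℂ),
      θ =ᵐ[AddCircle.haarAddCircle (T := (1 : ℝ))] ⇑g := by
    rw [← vol_haar]
    rintro ⟨g, hg⟩
    exact hd ⟨g, g.continuous, hg⟩
  obtain ⟨T₀, hT⟩ := exists_pair θ hm h1 hθ.2.2
  obtain ⟨T', hT'⟩ := exists_pair' θ hm h1 hθ.2.2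
  have hΘ := hasSum_ext θ h1
  have hz := exists_points θ hm h1 hθ.2.2 hd'
  have hP' := section_cj e hP
  have hW' := flip_cj e hW
  have hl := four_limits hP' hW' hT hT' (fun _ => rfl)
  set T : H →L[ℂ] H := cs e T₀ with hTd
  have hTc : cj e T = T₀ := cj_cs e T₀
  have hTs : cj e (ContinuousLinearMap.adjoint T) = ContinuousLinearMap.adjoint T₀ := by
    rw [adj_cj, hTc]
  have hA : ∀ n, cj e (AA P T (ContinuousLinearMap.adjoint T) n)
      = AA (fun n => cj e (P n)) T₀ (ContinuousLinearMap.adjoint T₀) n := by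
    intro n
    rw [AA_cj, hTc, hTs]
  have hTt : IsToeplitz e T θ := by
    intro j k
    rw [hTd, cs_apply, repr_e, ← LinearIsometryEquiv.inner_map_map e.repr,
      LinearIsometryEquiv.apply_symm_apply, repr_e, inner_ee]
    exact hT.hT j k
  have l1 : StrongLim (AA P T (ContinuousLinearMap.adjoint T)) 0 := by
    apply strong_cj e
    simp only [hA]
    exact hl.1
  have l2 : StrongLim (fun n => ContinuousLinearMap.adjoint
      (AA P T (ContinuousLinearMap.adjoint T) n)) 0 := by
    apply strong_cj e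
    simp only [adj_cj, hA]
    exact hl.2.1
  have l3 : StrongLim (fun n => W n * AA P T (ContinuousLinearMap.adjoint T) n * W n) 0 := by
    apply strong_cj e
    simp only [cj_mul, hA]
    exact hl.2.2.1
  have l4 : StrongLim (fun n => ContinuousLinearMap.adjoint
      (W n * AA P T (ContinuousLinearMap.adjoint T) n * W n)) 0 := by
    apply strong_cj e
    simp only [adj_cj, cj_mul, hA]
    exact hl.2.2.2
  have hdist : FarFromJ P W (AA P T (ContinuousLinearMap.adjoint T)) (16 * Real.exp (-4)) := by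
    intro K K' hK hK' a ha
    have h2 := dist_J hP' hW' hT hT' (fun _ => rfl) _ hΘ hz (cj e K) (cj e K')
      (compact_cj e K hK) (compact_cj e K' hK') a ha
    refine h2.mono fun n hn => ?_
    rw [← norm_cj e, cj_sub, cj_sub, cj_mul, cj_mul, cj_mul, cj_mul, hA]
    exact hn
  refine ⟨T, hTt, fun B hB => InAlg_AA e (e_PP e hP) hTt B hB, ⟨l1, l2, l3, l4⟩,
    ⟨⟨0, isCompactOperator_zero, l1⟩, ⟨0, isCompactOperator_zero, l3⟩⟩, ?_, hdist⟩
  rintro ⟨K, K', hK, hK', C, -, hC, hAJ⟩
  have e1 := e4_pos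
  have h2 := hdist K K' hK hK' (8 * Real.exp (-4)) (by linarith)
  have h3 : ∀ᶠ n in atTop, ‖C n‖ < 8 * Real.exp (-4) := hC.eventually (gt_mem_nhds (by linarith))
  obtain ⟨n, hn1, hn2⟩ := (h2.and_eventually h3).exists
  have h5 : AA P T (ContinuousLinearMap.adjoint T) n
      = P n * K * P n + W n * K' * W n + C n := hAJ n
  rw [h5] at hn1
  have h4 : P n * K * P n + W n * K' * W n + C n - P n * K * P n - W n * K' * W n = C n := by
    abel
  rw [h4] at hn1
  linarith

end Pool.Agent.Results.MP_a70d84_an.InnerSymbols
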